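import Pool.Agent.H23.Chip

set_option autoImplicit false

namespace Pool.Agent.Results.MP_85a811_lc.NPHard
open Pool.Agent.H11.PT Pool.Agent.H23.Chip

/-- the halting problem on a simple digraph: no infinite legal game starts at `x` -/
def Halts (p : ℕ × List (ℕ × ℕ) × List ℕ) : Prop :=
  ¬ ∃ s : ℕ → Fin p.1 → ℤ, s 0 = chips p.1 p.2.2 ∧ ∀ i, Step (arc p.1 p.2.1) (s i) (s (i + 1))

theorem result : NPHard Halts := by
  refine Hard.npHard fun L hL => ?_
  obtain ⟨f, hf, e⟩ := hard_ne L hL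
  have : PT fun φ => (3 * M φ, ed φ, xs φ) := by fun_prop
  exact ⟨_, this.comp hf, fun x => (e x).2.trans ((stable_iff (e x).1.1 (e x).1.2).symm.trans
    (halt_iff fun v h => h.1 rfl).symm)⟩

end Pool.Agent.Results.MP_85a811_lc.NPHard
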